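import Mathlib
import Pool.Agent.H770R2.Kad.HProps

/-!
Invertibility preserving surjections between C*-algebras are Jordan homomorphisms. Statements.
-/

open scoped ComplexOrder InnerProductSpace
open Filter

noncomputable section

namespace H770R2.Spec

/-- Automatic continuity: a linear surjection `φ` from a Banach space onto a C*-algebra with
`r(φ a) ≤ M ‖a‖` is bounded. -/
def P_cont : Prop :=
  ∀ (A : Type) [NormedAddCommGroup A] [NormedSpace ℂ A] [CompleteSpace A]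
    (B : Type) [CStarAlgebra B] (φ : A →ₗ[ℂ] B) (M : ℝ), Function.Surjective φ →
    (∀ a, ∀ z ∈ spectrum ℂ (φ a), ‖z‖ ≤ M * ‖a‖) → ∃ C : ℝ, ∀ a, ‖φ a‖ ≤ C * ‖a‖

/-- In a C*-algebra the distance of an invertible `b` to the non-invertible elements is at most
`1 / ‖b⁻¹‖`. -/
def P_sing : Prop :=
  ∀ (B : Type) [CStarAlgebra B] [Nontrivial B] (b : Bˣ),
    ∃ y : B, ‖y‖ * ‖((b⁻¹ : Bˣ) : B)‖ ≤ 1 ∧ ¬ IsUnit ((b : B) + y)

/-- Bound for the inverses. -/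
def P_inv : Prop :=
  ∀ (A : Type) [NormedRing A] [NormedAlgebra ℂ A] [CompleteSpace A]
    (B : Type) [CStarAlgebra B] (φ : A →ₗ[ℂ] B) (C : ℝ), Function.Surjective φ →
    (∀ a : A, IsUnit a → IsUnit (φ a)) → (∀ a, ‖φ a‖ ≤ C * ‖a‖) →
    ∃ K : ℝ, 0 ≤ K ∧ ∀ (a : Aˣ) (b : Bˣ), (b : B) = φ a →
      ‖((b⁻¹ : Bˣ) : B)‖ ≤ K * ‖((a⁻¹ : Aˣ) : A)‖

/-- Every C*-algebra has a faithful (isometric) representation on a Hilbert space. -/
def P_rep : Prop :=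
  ∀ (B : Type) [CStarAlgebra B],
    ∃ (H : Type) (_ : NormedAddCommGroup H) (_ : InnerProductSpace ℂ H) (_ : CompleteSpace H)
      (π : B →⋆ₐ[ℂ] (H →L[ℂ] H)), ∀ b, ‖π b‖ = ‖b‖

/-- The spectral criterion for idempotents. -/
def P_liou : Prop :=
  ∀ (R : Type) [NormedRing R] [NormedAlgebra ℂ R] [CompleteSpace R] (q : R) (K : ℝ),
    (∀ w : ℂ, w ≠ -1 → ∃ r : R, r * (1 + w • q) = 1 ∧ (1 + w • q) * r = 1 ∧
      ‖r‖ ≤ K * max 1 (‖1 + w‖⁻¹)) → q * q = q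

/-- A state, as a linear functional. -/
def IsState {A : Type} [CStarAlgebra A] (ρ : A →ₗ[ℂ] ℂ) : Prop :=
  ρ 1 = 1 ∧ ∀ a, 0 ≤ ρ (star a * a)

/-- `e` tends to a projection in the strong topology of every state. -/
structure IsPSeq {A : Type} [CStarAlgebra A] [PartialOrder A] (e : ℕ → A) : Prop where
  nonneg : ∀ n, 0 ≤ e n
  le_one : ∀ n, e n ≤ 1
  proj : ∀ ρ : A →ₗ[ℂ] ℂ, IsState ρ →
    Tendsto (fun n => (ρ (e n - e n * e n)).re) atTop (nhds 0)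
  cau : ∀ ρ : A →ₗ[ℂ] ℂ, IsState ρ → ∀ ε : ℝ, 0 < ε → ∃ N, ∀ m n, N ≤ m → N ≤ n →
    (ρ ((e m - e n) * (e m - e n))).re ≤ ε

/-- The map `w` is bounded, unital and bounded below on invertible elements. -/
structure IsInvB {A : Type} [CStarAlgebra A] {H : Type} [NormedAddCommGroup H]
    [InnerProductSpace ℂ H] [CompleteSpace H] (w : A →ₗ[ℂ] (H →L[ℂ] H)) (C K : ℝ) : Prop where
  one : w 1 = 1
  bdd : ∀ a, ‖w a‖ ≤ C * ‖a‖
  low : ∀ (a : Aˣ) (ξ : H), ‖ξ‖ ≤ K * ‖((a⁻¹ : Aˣ) : A)‖ * ‖w a ξ‖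
  low' : ∀ (a : Aˣ) (ξ : H), ‖ξ‖ ≤ K * ‖((a⁻¹ : Aˣ) : A)‖ * ‖star (w a) ξ‖

/-- Strong convergence along a sequence converging to a projection. -/
def P_lim : Prop :=
  ∀ (A : Type) [CStarAlgebra A] [PartialOrder A] [StarOrderedRing A] [Nontrivial A]
    (H : Type) [NormedAddCommGroup H] [InnerProductSpace ℂ H] [CompleteSpace H]
    (w : A →ₗ[ℂ] (H →L[ℂ] H)) (C : ℝ), (∀ a, ‖w a‖ ≤ C * ‖a‖) →
    ∀ e : ℕ → A, IsPSeq e →
    ∃ Q : H →L[ℂ] H, (∀ ξ, Tendsto (fun n => w (e n) ξ) atTop (nhds (Q ξ))) ∧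
      (∀ ξ, Tendsto (fun n => star (w (e n)) ξ) atTop (nhds (star Q ξ))) ∧
      ∀ z : ℂ,
        (∀ ξ, Tendsto (fun n => w (NormedSpace.exp (z • e n)) ξ) atTop
          (nhds (w 1 ξ + (Complex.exp z - 1) • Q ξ))) ∧
        ∀ ξ, Tendsto (fun n => star (w (NormedSpace.exp (z • e n))) ξ) atTop
          (nhds (star (w 1) ξ + star (Complex.exp z - 1) • star Q ξ))

/-- The limit operators are idempotent. -/
def P_idem : Prop :=
  ∀ (A : Type) [CStarAlgebra A] [PartialOrder A] [StarOrderedRing A] [Nontrivial A]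
    (H : Type) [NormedAddCommGroup H] [InnerProductSpace ℂ H] [CompleteSpace H]
    (w : A →ₗ[ℂ] (H →L[ℂ] H)) (C K : ℝ), IsInvB w C K →
    ∀ e : ℕ → A, IsPSeq e →
    ∃ Q : H →L[ℂ] H, Q * Q = Q ∧ ∀ ξ, Tendsto (fun n => w (e n) ξ) atTop (nhds (Q ξ))

/-- The functions `s ↦ min 1 (max 0 (n (s - t)))`. -/
def gfun (t : ℝ) (n : ℕ) (s : ℝ) : ℝ := min 1 (max 0 ((n : ℝ) * (s - t)))

/-- Approximate spectral projections. -/
def P_seq : Prop :=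
  ∀ (A : Type) [CStarAlgebra A] [PartialOrder A] [StarOrderedRing A] (h : A),
    0 ≤ h → h ≤ 1 →
    (∀ t : ℝ, IsPSeq fun n => cfc (gfun t n) h) ∧
    ∀ s t : ℝ, s ≤ t → IsPSeq fun n => cfc (gfun s n) h - cfc (gfun t n) h

/-- Approximation of `h` and `h ^ 2` by sums of approximate spectral projections. -/
def P_step : Prop :=
  ∀ (A : Type) [CStarAlgebra A] [PartialOrder A] [StarOrderedRing A] (h : A),
    0 ≤ h → h ≤ 1 → ∀ N n : ℕ, 0 < N → N ≤ n →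
    ‖h - (1 / (N : ℂ)) • ∑ i ∈ Finset.range N, cfc (gfun ((i : ℝ) / N) n) h‖ ≤ 1 / N ∧
    ‖h * h - (1 / (N : ℂ) ^ 2) • ∑ i ∈ Finset.range N,
      ((2 * i + 1 : ℕ) : ℂ) • cfc (gfun ((i : ℝ) / N) n) h‖ ≤ 3 / N

/-- Maps bounded below on the invertible elements are multiplicative on commutative
subalgebras. -/
def P_sq : Prop :=
  ∀ (A : Type) [CStarAlgebra A] [PartialOrder A] [StarOrderedRing A] [Nontrivial A]
    (H : Type) [NormedAddCommGroup H] [InnerProductSpace ℂ H] [CompleteSpace H]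
    (w : A →ₗ[ℂ] (H →L[ℂ] H)) (C K : ℝ), IsInvB w C K →
    ∀ h : A, 0 ≤ h → h ≤ 1 → w (h * h) = w h * w h

/-- Main theorem. -/
def P_main : Prop :=
  ∀ (A B : Type) [CStarAlgebra A] [CStarAlgebra B] (φ : A →ₗ[ℂ] B),
    Function.Surjective φ → φ 1 = 1 → (∀ a : A, IsUnit a → IsUnit (φ a)) →
    ∀ a : A, φ (a * a) = φ a * φ a

end H770R2.Spec
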